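import Pool.Agent.Helper78.LD10.Defs
import Pool.Agent.Helper80.LD8.NUM8
import Pool.Agent.Helper44.LD8.TT8
import Pool.Agent.Helper94.LD7.SH
import Pool.Agent.Helper59.LD7.Cls

/-!
# LD10, block CLS10: from the sums to the boxes
-/

set_option autoImplicit false

namespace Pool.Agent.Helper59.LD10

open Finset
open Pool.Agent.Helper78.LD10
open Pool.Agent.Helper78.LD8 (Pm Uf Tt)
open Pool.Agent.Helper41.LD6 (hr Qs)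
open Pool.Agent.Helper41.LD7 (sp)
open Pool.Agent.Helper80.LD8 (num_K num_Z num_ZK)
open Pool.Agent.Helper44.LD8 (Tt_spec Tt_le Tt_mono)
open Pool.Agent.Helper94.LD7 (shift7)
open Pool.Agent.Helper59.LD7 (disc7)

variable {F : Pm} {Q K : ℕ} {ℓst ℓ x : ℝ}

/-- the times of the progression against the times of the stage -/
theorem nu_T10 (hF : F.Ok) (K : ℕ) (hℓ : 0 < ℓ) {g : ℕ} (hg : 1 ≤ g) :
    g * Tt (F.θ ^ g) 1 ℓ ≤ Tt F.θ (F.Th K) ℓ + g ∧ Tt F.θ (F.Th K) ℓ ≤ g * Tt (F.θ ^ g) 1 ℓ + F.X * (3 * F.E K) := by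
  have hθ := hF.h1
  have h0 : 0 < F.θ := by linarith
  have hθg : 1 < F.θ ^ g := one_lt_pow₀ hθ (by omega)
  constructor
  · set N := Tt F.θ (F.Th K) ℓ with hN
    have h1 : Tt (F.θ ^ g) 1 ℓ ≤ N / g + 1 := by
      refine Tt_le ?_
      have h2 := Tt_spec (Θ := F.Th K) hθ hℓ
      have h3 : (1 : ℝ) ≤ F.Th K := one_le_pow₀ (by norm_num)
      have h4 : N ≤ g * (N / g + 1) := (Nat.lt_mul_div_succ N (by omega)).le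
      rw [← pow_mul]
      calc (1 : ℝ) ≤ F.θ ^ N * ℓ := h3.trans h2
        _ ≤ F.θ ^ (g * (N / g + 1)) * ℓ := mul_le_mul_of_nonneg_right (pow_le_pow_right₀ hθ.le h4) hℓ.le
    calc g * Tt (F.θ ^ g) 1 ℓ ≤ g * (N / g + 1) := Nat.mul_le_mul_left _ h1
      _ = g * (N / g) + g := by ring
      _ ≤ N + g := by
        have := Nat.mul_div_le N g
        omega
  · refine Tt_le ?_
    have h1 := Tt_spec (Θ := 1) hθg hℓ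
    have h2 : (2 : ℝ) ^ (3 * F.E K) ≤ F.θ ^ (F.X * (3 * F.E K)) := by
      rw [pow_mul F.θ]
      exact pow_le_pow_left₀ (by norm_num) hF.hθX _
    rw [← pow_mul] at h1
    unfold Pm.Th
    calc (2 : ℝ) ^ (3 * F.E K) = 1 * 2 ^ (3 * F.E K) := (one_mul _).symm
      _ ≤ (F.θ ^ (g * Tt (F.θ ^ g) 1 ℓ) * ℓ) * F.θ ^ (F.X * (3 * F.E K)) := mul_le_mul h1 h2 (by positivity) (by positivity)
      _ = F.θ ^ (g * Tt (F.θ ^ g) 1 ℓ + F.X * (3 * F.E K)) * ℓ := by rw [pow_add]; ring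

/-- the numbers -/
theorem cls_num {X d Z K a s Q Δ ν : ℕ} {Em S0 : ℝ} (hK : 1 ≤ K) (ha : 1 ≤ a) (hZ : Z ≤ K) (hQ1 : 1 ≤ Q) (hXd : (X + 1) * (d + 4) ≤ Z) (hQX : Q ≤ X)
    (hs : s ≤ d + 1)
    (hΔ : Δ = X * (3 * K ^ a) + Q)
    (hEm : Em = Q * (131072 * X * (d + 4) * Q * (K : ℝ) ^ (2 * a + 2) * (4 * (d + 1) * (K : ℝ)) ^ s) + 2 * (Δ + d))
    (hν : (ν : ℝ) ≤ 2 ^ K * (X * (K : ℝ) ^ (2 * a + 1)) + Δ)
    (hS0 : S0 ≤ ((K : ℝ) + 1) ^ s * Em + 2 * s * ν * (1 / 2) ^ K) :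
    S0 ≤ (2 ^ 30 * (8 * (d + 1)) ^ (d + 1) * Z * Q ^ 2 : ℕ) * (K : ℝ) ^ (2 * a + 2 * d + 4) := by
  have hK1 : (1 : ℝ) ≤ K := by exact_mod_cast hK
  have hXd' : ((X : ℝ) + 1) * (d + 4) ≤ Z := by exact_mod_cast hXd
  have hZ' : (Z : ℝ) ≤ K := by exact_mod_cast hZ
  have hs' : (s : ℝ) ≤ d + 1 := by exact_mod_cast hs
  have hQ1' : (1 : ℝ) ≤ Q := by exact_mod_cast hQ1
  have hQX' : (Q : ℝ) ≤ X := by exact_mod_cast hQX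
  have hX0 : (0 : ℝ) ≤ X := Nat.cast_nonneg _
  have hd0 : (0 : ℝ) ≤ d := Nat.cast_nonneg _
  have hs0 : (0 : ℝ) ≤ s := Nat.cast_nonneg _
  have hZ0 : (0 : ℝ) ≤ Z := Nat.cast_nonneg _
  have hΔ0 : (0 : ℝ) ≤ Δ := Nat.cast_nonneg _
  set P : ℝ := (8 * ((d : ℝ) + 1)) ^ (d + 1) * (K : ℝ) ^ (2 * a + 2 * d + 4) with hP
  have b8 : (1 : ℝ) ≤ 8 * ((d : ℝ) + 1) := by linarith
  have p8 : (1 : ℝ) ≤ (8 * ((d : ℝ) + 1)) ^ (d + 1) := one_le_pow₀ b8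
  have pK : ∀ j ≤ 2 * a + 2 * d + 4, (K : ℝ) ^ j ≤ (K : ℝ) ^ (2 * a + 2 * d + 4) := fun j hj => pow_le_pow_right₀ hK1 hj
  have hPK : ∀ j ≤ 2 * a + 2 * d + 4, (K : ℝ) ^ j ≤ P := fun j hj => (pK j hj).trans (le_mul_of_one_le_left (by positivity) p8)
  have hPs : ((K : ℝ) + 1) ^ s ≤ 2 ^ s * (K : ℝ) ^ s := by
    rw [← mul_pow]
    exact pow_le_pow_left₀ (by positivity) (by linarith) s
  have h8 : (8 * ((d : ℝ) + 1)) ^ s ≤ (8 * ((d : ℝ) + 1)) ^ (d + 1) := pow_le_pow_right₀ b8 hs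
  have h2 : (2 : ℝ) ^ s ≤ (8 * ((d : ℝ) + 1)) ^ (d + 1) := (pow_le_pow_left₀ (by norm_num) (by linarith) s).trans h8
  have hXZ : (X : ℝ) * (d + 4) ≤ Z := by nlinarith
  have hQQ : (1 : ℝ) ≤ (Q : ℝ) ^ 2 := one_le_pow₀ hQ1'
  have hPpos : 0 ≤ P := by positivity
  have e1 : ((K : ℝ) + 1) ^ s * (Q * (131072 * X * (d + 4) * Q * (K : ℝ) ^ (2 * a + 2) * (4 * (d + 1) * (K : ℝ)) ^ s)) ≤ 131072 * Z * (Q : ℝ) ^ 2 * P := by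
    calc ((K : ℝ) + 1) ^ s * (Q * (131072 * X * (d + 4) * Q * (K : ℝ) ^ (2 * a + 2) * (4 * (d + 1) * (K : ℝ)) ^ s))
        ≤ (2 ^ s * (K : ℝ) ^ s) * (Q * (131072 * X * (d + 4) * Q * (K : ℝ) ^ (2 * a + 2) * (4 * (d + 1) * (K : ℝ)) ^ s)) :=
          mul_le_mul_of_nonneg_right hPs (by positivity)
      _ = 131072 * (X * (d + 4)) * (Q : ℝ) ^ 2 * ((8 * ((d : ℝ) + 1)) ^ s * (K : ℝ) ^ (2 * a + 2 + 2 * s)) := by
          have h84 : (8 * ((d : ℝ) + 1)) ^ s = 2 ^ s * (4 * ((d : ℝ) + 1)) ^ s := by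
            rw [← mul_pow]
            congr 1
            ring
          rw [h84, mul_pow (4 * ((d : ℝ) + 1)), pow_add (K : ℝ) (2 * a + 2), pow_mul' (K : ℝ) 2 s, sq ((K : ℝ) ^ s)]
          ring
      _ ≤ 131072 * Z * (Q : ℝ) ^ 2 * ((8 * ((d : ℝ) + 1)) ^ (d + 1) * (K : ℝ) ^ (2 * a + 2 * d + 4)) := by
          have h4 := pK (2 * a + 2 + 2 * s) (by omega)
          gcongr
      _ = 131072 * Z * (Q : ℝ) ^ 2 * P := by rw [hP]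
  -- the differences of the ranges
  have hΔK : (Δ : ℝ) + d ≤ 5 * Z * (K : ℝ) ^ a := by
    rw [hΔ]
    push_cast
    have h4 : (X : ℝ) ≤ Z := by nlinarith
    have h5 : (d : ℝ) ≤ Z := by nlinarith
    have h7 : (1 : ℝ) ≤ (K : ℝ) ^ a := one_le_pow₀ hK1
    have h8 : (Z : ℝ) ≤ Z * (K : ℝ) ^ a := le_mul_of_one_le_right hZ0 h7
    have h9 : (X : ℝ) * (K : ℝ) ^ a ≤ Z * (K : ℝ) ^ a := mul_le_mul_of_nonneg_right h4 (by positivity)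
    linarith
  have e2 : ((K : ℝ) + 1) ^ s * (2 * (Δ + d)) ≤ 10 * Z * (Q : ℝ) ^ 2 * P := by
    calc ((K : ℝ) + 1) ^ s * (2 * (Δ + d)) ≤ (2 ^ s * (K : ℝ) ^ s) * (2 * (5 * Z * (K : ℝ) ^ a)) := by gcongr
      _ = 10 * Z * 1 * (2 ^ s * (K : ℝ) ^ (s + a)) := by rw [pow_add (K : ℝ) s a]; ring
      _ ≤ 10 * Z * (Q : ℝ) ^ 2 * ((8 * ((d : ℝ) + 1)) ^ (d + 1) * (K : ℝ) ^ (2 * a + 2 * d + 4)) := by
          have h4 := pK (s + a) (by omega)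
          gcongr
      _ = 10 * Z * (Q : ℝ) ^ 2 * P := by rw [hP]
  have e3 : 2 * s * ν * (1 / 2 : ℝ) ^ K ≤ 12 * Z * (Q : ℝ) ^ 2 * P := by
    have h3 : (s : ℝ) * X ≤ Z := by nlinarith
    have h30 : (0 : ℝ) < (1 / 2 : ℝ) ^ K := by positivity
    have h31 : (1 / 2 : ℝ) ^ K ≤ 1 := pow_le_one₀ (by norm_num) (by norm_num)
    have h32 : (2 : ℝ) ^ K * (1 / 2 : ℝ) ^ K = 1 := by rw [← mul_pow]; norm_num
    have h33 : (s : ℝ) ≤ K := by nlinarith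
    calc 2 * s * ν * (1 / 2 : ℝ) ^ K ≤ 2 * s * (2 ^ K * (X * (K : ℝ) ^ (2 * a + 1)) + Δ) * (1 / 2 : ℝ) ^ K := by gcongr
      _ = 2 * (s * X) * (K : ℝ) ^ (2 * a + 1) * (2 ^ K * (1 / 2 : ℝ) ^ K) + 2 * s * Δ * (1 / 2 : ℝ) ^ K := by ring
      _ = 2 * (s * X) * (K : ℝ) ^ (2 * a + 1) + 2 * s * Δ * (1 / 2 : ℝ) ^ K := by rw [h32, mul_one]
      _ ≤ 2 * Z * (K : ℝ) ^ (2 * a + 1) + 2 * K * (5 * Z * (K : ℝ) ^ a) * 1 := by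
          have h5 : (Δ : ℝ) ≤ 5 * Z * (K : ℝ) ^ a := by linarith
          gcongr
      _ = 2 * Z * (K : ℝ) ^ (2 * a + 1) + 10 * Z * (K : ℝ) ^ (a + 1) := by ring
      _ ≤ 2 * Z * P + 10 * Z * P := by
          have h4 := hPK (2 * a + 1) (by omega)
          have h5 := hPK (a + 1) (by omega)
          gcongr
      _ = 12 * Z * 1 * P := by ring
      _ ≤ 12 * Z * (Q : ℝ) ^ 2 * P := by gcongr
  have hEm2 : ((K : ℝ) + 1) ^ s * Em = ((K : ℝ) + 1) ^ s * (Q * (131072 * X * (d + 4) * Q * (K : ℝ) ^ (2 * a + 2) * (4 * (d + 1) * (K : ℝ)) ^ s)) +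
      ((K : ℝ) + 1) ^ s * (2 * (Δ + d)) := by rw [hEm, mul_add]
  rw [hEm2] at hS0
  push_cast
  have h9 : 0 ≤ (Z : ℝ) * (Q : ℝ) ^ 2 * P := by positivity
  calc S0 ≤ 131072 * Z * (Q : ℝ) ^ 2 * P + 10 * Z * (Q : ℝ) ^ 2 * P + 12 * Z * (Q : ℝ) ^ 2 * P := by linarith
    _ ≤ 2 ^ 30 * (Z * (Q : ℝ) ^ 2 * P) := by nlinarith
    _ = _ := by rw [hP]; ring

theorem cls10 (hF : F.Ok) (hK : F.Big K) (hQ : 1 ≤ Q) (hQX : Q ≤ F.X) (hℓ : 0 < ℓ) (hst : ℓ ≤ ℓst) (hT : F.T K ℓst ℓ ≤ 2 ^ K * (F.X * F.b K))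
    {s g : ℕ} (hg : 1 ≤ g) (hgQ : g ∣ Q) {κ : Fin s → ℕ} (hκ : Function.Injective κ) (hκd : ∀ i, κ i ≤ F.d)
    (hsum : ∀ u ∈ Is F Q K, |∑ j ∈ Finset.range (F.T K ℓst ℓ) with (F.n₀ K ℓst + j) % Q = u.1, ∏ i : Fin (F.d + 1), hr (u.2 i) (F.U K ℓst (j + i) x)| ≤
      131072 * F.X * (F.d + 4) * Q * (K : ℝ) ^ (2 * F.a + 2) * (4 * (F.d + 1) * (K : ℝ)) ^ sp u.2)
    (α γ : Fin s → ℝ) (hαγ : ∀ i, 0 ≤ α i ∧ α i ≤ γ i ∧ γ i ≤ 1) :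
    |(((Finset.Ico (Tt (F.θ ^ g) 1 ℓst) (Tt (F.θ ^ g) 1 ℓ)).filter fun n : ℕ =>
        ∀ i : Fin s, α i ≤ Int.fract (Uf F.θ F.c (g * n + κ i) x) ∧ Int.fract (Uf F.θ F.c (g * n + κ i) x) < γ i).card : ℝ) -
      ((Tt (F.θ ^ g) 1 ℓ : ℝ) - Tt (F.θ ^ g) 1 ℓst) * ∏ i, (γ i - α i)| ≤ cF F Q * (K : ℝ) ^ (2 * F.a + 2 * F.d + 4) := by
  have hK12 := num_K hK
  have hZK := (num_ZK hK).1
  obtain ⟨-, -, -, -, hXd⟩ := num_Z F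
  have hK1 : (1 : ℝ) ≤ K := by
    have : 1 ≤ K := by omega
    exact_mod_cast this
  have hθ := hF.h1
  have hθg : 1 < F.θ ^ g := one_lt_pow₀ hθ (by omega)
  have hst0 : 0 < ℓst := lt_of_lt_of_le hℓ hst
  have hgQ' : g ≤ Q := Nat.le_of_dvd hQ hgQ
  have hs : s ≤ F.d + 1 := by
    have h1 := Fintype.card_le_of_injective (fun i : Fin s => (⟨κ i, Nat.lt_succ_of_le (hκd i)⟩ : Fin (F.d + 1)))
      (fun i j hij => hκ (by simpa using hij))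
    simpa using h1
  have hTh0 : 0 ≤ F.Th K := by unfold Pm.Th; positivity
  -- the two intervals of times
  obtain ⟨n1, n2⟩ := nu_T10 hF K hℓ hg
  obtain ⟨m1, m2⟩ := nu_T10 hF K hst0 hg
  have hN : Tt F.θ (F.Th K) ℓst ≤ Tt F.θ (F.Th K) ℓ := Tt_mono hθ hℓ hst hTh0
  have hνν : Tt (F.θ ^ g) 1 ℓst ≤ Tt (F.θ ^ g) 1 ℓ := Tt_mono hθg hℓ hst zero_le_one
  set N₁ := Tt F.θ (F.Th K) ℓst with hN₁
  set N₂ := Tt F.θ (F.Th K) ℓ with hN₂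
  set ν₁ := Tt (F.θ ^ g) 1 ℓst with hν₁
  set ν₂ := Tt (F.θ ^ g) 1 ℓ with hν₂
  have hn0 : F.n₀ K ℓst = N₁ := rfl
  have hTN : N₂ = N₁ + F.T K ℓst ℓ := by
    have : F.T K ℓst ℓ = N₂ - N₁ := rfl
    omega
  rw [hn0] at hsum
  set T := F.T K ℓst ℓ with hTdef
  obtain ⟨Δ, hΔ⟩ : ∃ Δ : ℕ, Δ = F.X * (3 * F.E K) + Q := ⟨_, rfl⟩
  -- the sums
  set Em : ℝ := 131072 * F.X * (F.d + 4) * Q * (K : ℝ) ^ (2 * F.a + 2) * (4 * (F.d + 1) * (K : ℝ)) ^ s with hEm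
  have hEm0 : 0 ≤ Em := by positivity
  have hsum2 : ∀ u < Q, ∀ q ∈ Qs F.d K, sp q ≤ s → |∑ n ∈ Finset.Ico N₁ N₂ with n % Q = u, ∏ i : Fin (F.d + 1), hr (q i) (Uf F.θ F.c (n + i) x)| ≤ Em := by
    intro u hu q hq hqs
    have h1 := hsum (u, q) (Finset.mem_product.2 ⟨Finset.mem_range.2 hu, hq⟩)
    have h2 : ∑ n ∈ Finset.Ico N₁ N₂ with n % Q = u, ∏ i : Fin (F.d + 1), hr (q i) (Uf F.θ F.c (n + i) x) =
        ∑ j ∈ Finset.range T with (N₁ + j) % Q = u, ∏ i : Fin (F.d + 1), hr (q i) (F.U K ℓst (j + i) x) := by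
      rw [Finset.sum_filter, Finset.sum_filter, hTN, Finset.sum_Ico_eq_sum_range, Nat.add_sub_cancel_left]
      refine sum_congr rfl fun j _ => ?_
      congr 1
      refine prod_congr rfl fun i _ => ?_
      unfold Pm.U
      rw [hn0, add_assoc]
    rw [h2]
    refine h1.trans ?_
    rw [hEm]
    have hd0 : (0 : ℝ) ≤ F.d := Nat.cast_nonneg _
    have h3 : (4 * ((F.d : ℝ) + 1) * (K : ℝ)) ^ sp q ≤ (4 * ((F.d : ℝ) + 1) * (K : ℝ)) ^ s := by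
      refine pow_le_pow_right₀ ?_ hqs
      nlinarith
    exact mul_le_mul_of_nonneg_left h3 (by positivity)
  have hb1 : g * ν₁ ≤ N₁ + Δ := by omega
  have hb2 : N₁ ≤ g * ν₁ + Δ := by omega
  have hb3 : g * ν₂ ≤ N₂ + Δ := by omega
  have hb4 : N₂ ≤ g * ν₂ + Δ := by omega
  have hEmp : 0 ≤ (Q : ℝ) * Em + 2 * ((Δ : ℝ) + (F.d : ℝ)) := by
    have h1 : (0 : ℝ) ≤ Q := Nat.cast_nonneg _
    have h2 : (0 : ℝ) ≤ Δ := Nat.cast_nonneg _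
    have h3 : (0 : ℝ) ≤ F.d := Nat.cast_nonneg _
    have h4 := mul_nonneg h1 hEm0
    linarith
  have hq7 : ∀ q : Fin s → ℕ, (∀ i, q i < 2 ^ K) → (∃ i, q i ≠ 0) →
      |∑ n ∈ Finset.Ico ν₁ ν₂, ∏ i : Fin s, hr (q i) (Uf F.θ F.c (g * n + κ i) x)| ≤ (Q : ℝ) * Em + 2 * ((Δ : ℝ) + (F.d : ℝ)) :=
    fun q hq hq0 => shift7 hg hgQ hQ hκ hκd hN hνν hb1 hb2 hb3 hb4 (fun n => Uf F.θ F.c n x) hEm0 hsum2 hq hq0
  have hdisc := disc7 (K := K) hνν (fun n i => Uf F.θ F.c (g * n + κ i) x) hEmp hq7 α γ hαγ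
  have hνr : ((ν₂ - ν₁ : ℕ) : ℝ) = (ν₂ : ℝ) - ν₁ := Nat.cast_sub hνν
  unfold cF
  refine cls_num (X := F.X) (d := F.d) (Z := F.Z) (K := K) (a := F.a) (s := s) (Q := Q) (ν := ν₂ - ν₁) (Δ := Δ)
    (Em := (Q : ℝ) * Em + 2 * ((Δ : ℝ) + (F.d : ℝ))) (by omega) (by have := hF.ha; omega) hZK hQ hXd hQX hs (by rw [hΔ, Pm.E]) (by rw [hEm]) ?_ ?_
  · have h1 : ν₂ - ν₁ ≤ T + Δ := by
      have h2 : g * ν₂ ≤ N₂ + g := n1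
      have h4 : g * (ν₂ - ν₁) ≤ T + Δ := by
        rw [Nat.mul_sub]
        omega
      exact (Nat.le_mul_of_pos_left _ hg).trans h4
    have h5 : ((ν₂ - ν₁ : ℕ) : ℝ) ≤ T + Δ := by exact_mod_cast h1
    have h6 : (T : ℝ) ≤ 2 ^ K * (F.X * (K : ℝ) ^ (2 * F.a + 1)) := by
      unfold Pm.b at hT
      exact_mod_cast hT
    linarith
  · rw [hνr]
    exact hdisc

end Pool.Agent.Helper59.LD10
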